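import Pool.Agent.T1K.Defs

/-!
# T1, row R5: invariance of the single species functionals

`St N R l` is the union of the classes `s * 3 ^ N + Cl N (l s)`, `s < R`. The coefficients of the
generating polynomial `gp` of `max u z`, `z ∈ St N R l`, integrated against polynomials in `u`, do
not depend on the letters `l`, up to the weight `2 m + p < N`.
-/

set_option autoImplicit false

open Finset Polynomial

namespace Pool.Agent.Helper24.T1

open Pool.Agent.T1K

/-! ## Sets -/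

/-- the tick set without the end tick -/
def St (N R : ℕ) (l : ℕ → ZMod 3) : Finset ℕ :=
  (range (R * 3 ^ N)).filter (fun z => dg N (z % 3 ^ N) = l (z / 3 ^ N))

theorem mem_Cl {N : ℕ} {t : ZMod 3} {z : ℕ} : z ∈ Cl N t ↔ z < 3 ^ N ∧ dg N z = t := by
  rw [Cl, mem_filter, mem_range]

theorem mem_St {N R : ℕ} {l : ℕ → ZMod 3} {z : ℕ} :
    z ∈ St N R l ↔ z < R * 3 ^ N ∧ dg N (z % 3 ^ N) = l (z / 3 ^ N) := by
  rw [St, mem_filter, mem_range]

theorem Cl_succ (N : ℕ) (t : ZMod 3) : Cl (N + 1) t = St N 3 (fun d => t - d) := by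
  ext z
  rw [mem_Cl, mem_St, pow_succ, mul_comm 3, dg]
  refine and_congr Iff.rfl ⟨fun h => ?_, fun h => ?_⟩
  · rw [← h]
    ring
  · rw [h]
    ring

theorem prod_St {β : Type*} [CommMonoid β] (N R : ℕ) (l : ℕ → ZMod 3) (f : ℕ → β) :
    ∏ z ∈ St N R l, f z = ∏ s ∈ range R, ∏ z ∈ Cl N (l s), f (s * 3 ^ N + z) := by
  have hA : 0 < 3 ^ N := by positivity
  rw [St, prod_filter]
  induction R with
  | zero => rw [Nat.zero_mul]; rfl
  | succ R ih =>
    rw [Nat.succ_mul, prod_range_add, ih, prod_range_succ]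
    congr 1
    rw [Cl, prod_filter]
    refine prod_congr rfl fun z hz => ?_
    have hz' := mem_range.mp hz
    have h1 : (R * 3 ^ N + z) % 3 ^ N = z := by
      rw [Nat.mul_comm, Nat.mul_add_mod, Nat.mod_eq_of_lt hz']
    have h2 : (R * 3 ^ N + z) / 3 ^ N = R := by
      rw [Nat.mul_comm, Nat.mul_add_div hA, Nat.div_eq_of_lt hz', add_zero]
    rw [h1, h2]

theorem sum_St {β : Type*} [AddCommMonoid β] (N R : ℕ) (l : ℕ → ZMod 3) (f : ℕ → β) :
    ∑ z ∈ St N R l, f z = ∑ s ∈ range R, ∑ z ∈ Cl N (l s), f (s * 3 ^ N + z) :=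
  prod_St (β := Multiplicative β) N R l f

theorem sum_rot {β : Type*} [AddCommMonoid β] (g : ZMod 3 → β) (t : ZMod 3) :
    ∑ d ∈ range 3, g (t - (d : ZMod 3)) = ∑ t', g t' := by
  have h1 : (∑ t' : ZMod 3, g t') = ∑ t' : Fin 3, g t' := rfl
  rw [h1, Fin.sum_univ_three, sum_range_succ, sum_range_succ, sum_range_one]
  have h3 : ∀ t : ZMod 3, t = 0 ∨ t = 1 ∨ t = 2 := by decide
  rcases h3 t with rfl | rfl | rfl
  · rw [show (0 : ZMod 3) - ((0 : ℕ) : ZMod 3) = (0 : Fin 3) from rfl,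
      show (0 : ZMod 3) - ((1 : ℕ) : ZMod 3) = (2 : Fin 3) from rfl,
      show (0 : ZMod 3) - ((2 : ℕ) : ZMod 3) = (1 : Fin 3) from rfl]
    abel
  · rw [show (1 : ZMod 3) - ((0 : ℕ) : ZMod 3) = (1 : Fin 3) from rfl,
      show (1 : ZMod 3) - ((1 : ℕ) : ZMod 3) = (0 : Fin 3) from rfl,
      show (1 : ZMod 3) - ((2 : ℕ) : ZMod 3) = (2 : Fin 3) from rfl]
    abel
  · rw [show (2 : ZMod 3) - ((0 : ℕ) : ZMod 3) = (2 : Fin 3) from rfl,
      show (2 : ZMod 3) - ((1 : ℕ) : ZMod 3) = (1 : Fin 3) from rfl,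
      show (2 : ZMod 3) - ((2 : ℕ) : ZMod 3) = (0 : Fin 3) from rfl]
    abel

theorem card_Cl (N : ℕ) (t : ZMod 3) : (Cl (N + 1) t).card = 3 ^ N := by
  rw [Cl_succ, card_eq_sum_ones, sum_St]
  have h1 : ∀ s : ℕ, ∑ z ∈ Cl N (t - (s : ZMod 3)), 1 = (Cl N (t - (s : ZMod 3))).card :=
    fun s => (card_eq_sum_ones _).symm
  simp only [h1]
  rw [sum_rot (fun t' => (Cl N t').card)]
  simp only [Cl]
  rw [← card_eq_sum_card_fiberwise (s := range (3 ^ N)) (t := univ) (f := fun z => dg N z)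
    (fun z _ => mem_coe.mpr (mem_univ _)), card_range]

/-! ## Shifts -/

/-- generating polynomial of the elementary symmetric functions of `σ + z`, `z ∈ T` -/
noncomputable def Ps (T : Finset ℕ) (σ : ℝ) : ℝ[X] := ∏ z ∈ T, (1 + C (σ + (z : ℝ)) * X)

theorem natDegree_prod_le (T : Finset ℕ) (w : ℕ → ℝ) :
    (∏ z ∈ T, (1 + C (w z) * X) : ℝ[X]).natDegree ≤ T.card := by
  refine (Polynomial.natDegree_prod_le _ _).trans ?_
  rw [card_eq_sum_ones]
  refine sum_le_sum fun z _ => ?_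
  refine (natDegree_add_le _ _).trans (max_le ?_ ?_)
  · rw [natDegree_one]; exact Nat.zero_le _
  · exact (natDegree_C_mul_le _ _).trans (by rw [natDegree_X])

/-- homogenisation -/
theorem prod_shift (T : Finset ℕ) (w : ℕ → ℝ) (B : ℝ[X]) :
    ∏ z ∈ T, (B + C (w z) * X) = ∑ j ∈ range (T.card + 1),
      C ((∏ z ∈ T, (1 + C (w z) * X) : ℝ[X]).coeff j) * X ^ j * B ^ (T.card - j) := by
  classical
  induction T using Finset.induction_on with
  | empty => simp
  | insert a T ha ih =>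
    rw [prod_insert ha, prod_insert ha, ih, card_insert_of_notMem ha]
    set q : ℝ[X] := ∏ z ∈ T, (1 + C (w z) * X) with hq
    have hdeg : q.natDegree ≤ T.card := natDegree_prod_le T w
    have h1 : ∀ j, ((1 + C (w a) * X) * q).coeff (j + 1) = q.coeff (j + 1) + w a * q.coeff j := by
      intro j
      rw [add_mul, one_mul, coeff_add, mul_assoc, coeff_C_mul, coeff_X_mul]
    have h0 : ((1 + C (w a) * X) * q).coeff 0 = q.coeff 0 := by
      rw [add_mul, one_mul, coeff_add, mul_assoc, coeff_C_mul, coeff_X_mul_zero, mul_zero, add_zero]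
    have h2 : ∑ j ∈ range (T.card + 1 + 1),
        C (((1 + C (w a) * X) * q).coeff j) * X ^ j * B ^ (T.card + 1 - j) =
        (∑ j ∈ range (T.card + 1 + 1), C (q.coeff j) * X ^ j * B ^ (T.card + 1 - j)) +
        ∑ j ∈ range (T.card + 1), C (w a * q.coeff j) * X ^ (j + 1) * B ^ (T.card - j) := by
      rw [sum_range_succ' _ (T.card + 1), sum_range_succ' (fun j => C (q.coeff j) * X ^ j *
        B ^ (T.card + 1 - j)) (T.card + 1), h0]
      have h3 : ∑ j ∈ range (T.card + 1), C (((1 + C (w a) * X) * q).coeff (j + 1)) * X ^ (j + 1) *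
          B ^ (T.card + 1 - (j + 1)) =
          ∑ j ∈ range (T.card + 1), C (q.coeff (j + 1)) * X ^ (j + 1) *
            B ^ (T.card + 1 - (j + 1)) +
          ∑ j ∈ range (T.card + 1), C (w a * q.coeff j) * X ^ (j + 1) * B ^ (T.card - j) := by
        rw [← sum_add_distrib]
        refine sum_congr rfl fun j _ => ?_
        rw [h1, C_add, Nat.add_sub_add_right]
        ring
      rw [h3]
      ring
    rw [h2, sum_range_succ (fun j => C (q.coeff j) * X ^ j * B ^ (T.card + 1 - j)) (T.card + 1),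
      coeff_eq_zero_of_natDegree_lt (Nat.lt_succ_of_le hdeg), C_0, zero_mul,
      zero_mul, add_zero, add_mul, mul_sum, mul_sum]
    congr 1
    · refine sum_congr rfl fun j hj => ?_
      have h3 : T.card + 1 - j = T.card - j + 1 := by
        have := mem_range.mp hj
        omega
      rw [h3, pow_succ]
      ring
    · refine sum_congr rfl fun j _ => ?_
      rw [C_mul, pow_succ]
      ring

/-- coefficients of the shifted product -/
theorem coeff_shift (T : Finset ℕ) (w : ℕ → ℝ) (B D : ℝ[X]) (m : ℕ) :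
    ((∏ z ∈ T, (B + C (w z) * X)) * D).coeff m = ∑ j ∈ range (m + 1),
      (∏ z ∈ T, (1 + C (w z) * X) : ℝ[X]).coeff j * (B ^ (T.card - j) * D).coeff (m - j) := by
  have hdeg := natDegree_prod_le T w
  set q : ℝ[X] := ∏ z ∈ T, (1 + C (w z) * X) with hq
  have h1 : ∏ z ∈ T, (B + C (w z) * X) = ∑ j ∈ range (T.card + 1 + (m + 1)),
      C (q.coeff j) * X ^ j * B ^ (T.card - j) := by
    rw [prod_shift, ← hq, sum_range_add _ (T.card + 1) (m + 1), left_eq_add]
    refine sum_eq_zero fun j _ => ?_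
    rw [coeff_eq_zero_of_natDegree_lt (by omega), C_0, zero_mul, zero_mul]
  rw [h1, sum_mul, finsetSum_coeff]
  have h2 : ∀ j, (C (q.coeff j) * X ^ j * B ^ (T.card - j) * D).coeff m =
      if j ≤ m then q.coeff j * (B ^ (T.card - j) * D).coeff (m - j) else 0 := by
    intro j
    rw [mul_assoc, mul_assoc, coeff_C_mul, coeff_X_pow_mul']
    split_ifs
    · rfl
    · rw [mul_zero]
  simp only [h2]
  rw [← sum_filter]
  refine sum_congr ?_ fun _ _ => rfl
  ext j
  rw [mem_filter, mem_range, mem_range]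
  omega

/-! ## Equality of the first coefficients -/

/-- equality of the coefficients below `k` -/
def EqL (k : ℕ) (p q : ℝ[X]) : Prop := ∀ i < k, p.coeff i = q.coeff i

theorem EqL.refl {k : ℕ} (p : ℝ[X]) : EqL k p p := fun _ _ => rfl

theorem EqL.mul {k : ℕ} {p q p' q' : ℝ[X]} (h : EqL k p q) (h' : EqL k p' q') :
    EqL k (p * p') (q * q') := by
  intro i hi
  rw [coeff_mul, coeff_mul]
  refine sum_congr rfl fun x hx => ?_
  have h1 := mem_antidiagonal.mp hx
  rw [h _ (by omega), h' _ (by omega)]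

theorem EqL.prod {k : ℕ} {ι : Type*} {s : Finset ι} {f g : ι → ℝ[X]}
    (h : ∀ i ∈ s, EqL k (f i) (g i)) : EqL k (∏ i ∈ s, f i) (∏ i ∈ s, g i) := by
  classical
  induction s using Finset.induction_on with
  | empty => exact EqL.refl _
  | insert a s ha ih =>
    rw [prod_insert ha, prod_insert ha]
    exact (h a (mem_insert_self a s)).mul (ih fun i hi => h i (mem_insert_of_mem hi))

/-- invariance of the elementary symmetric functions -/
def InvE (N : ℕ) : Prop := ∀ (t t' : ZMod 3) (σ : ℝ), EqL N (Ps (Cl N t) σ) (Ps (Cl N t') σ)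

theorem Ps_coeff_zero (T : Finset ℕ) (σ : ℝ) : (Ps T σ).coeff 0 = 1 := by
  rw [Ps, coeff_zero_eq_eval_zero, eval_prod]
  refine prod_eq_one fun z _ => ?_
  simp

theorem Ps_shift_coeff (T : Finset ℕ) (σ : ℝ) (m : ℕ) : (Ps T σ).coeff m =
    ∑ j ∈ range (m + 1), (Ps T 0).coeff j * ((1 + C σ * X : ℝ[X]) ^ (T.card - j)).coeff (m - j) := by
  have h1 := coeff_shift T (fun z => (z : ℝ)) (1 + C σ * X) 1 m
  simp only [mul_one] at h1
  have h2 : Ps T σ = ∏ z ∈ T, (1 + C σ * X + C (z : ℝ) * X) := by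
    refine prod_congr rfl fun z _ => ?_
    rw [C_add]
    ring
  have h3 : Ps T 0 = ∏ z ∈ T, (1 + C (z : ℝ) * X) := by
    refine prod_congr rfl fun z _ => ?_
    rw [zero_add]
  rw [h2, h1, h3]

/-- the coefficient of degree `N` changes by a quantity which does not depend on the shift -/
theorem InvE.top {N : ℕ} (h : InvE (N + 1)) (t t' : ZMod 3) (σ : ℝ) :
    (Ps (Cl (N + 1) t) σ).coeff (N + 1) - (Ps (Cl (N + 1) t) 0).coeff (N + 1) =
      (Ps (Cl (N + 1) t') σ).coeff (N + 1) - (Ps (Cl (N + 1) t') 0).coeff (N + 1) := by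
  rw [Ps_shift_coeff _ σ, Ps_shift_coeff _ σ, sum_range_succ _ (N + 1), sum_range_succ _ (N + 1),
    card_Cl, card_Cl, Nat.sub_self]
  have h1 : ∀ k : ℕ, ((1 + C σ * X : ℝ[X]) ^ k).coeff 0 = 1 := by
    intro k
    rw [coeff_zero_eq_eval_zero, eval_pow]
    simp
  rw [h1, mul_one, mul_one, add_sub_cancel_right, add_sub_cancel_right]
  refine sum_congr rfl fun j hj => ?_
  rw [h t t' 0 j (mem_range.mp hj)]

/-- coefficient of a product of polynomials which agree up to the degree `N` -/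
theorem coeff_mul_top {N : ℕ} {a b : ℝ[X]} (ha : ∀ i < N, a.coeff i = 0) :
    (a * b).coeff N = a.coeff N * b.coeff 0 := by
  rw [coeff_mul, sum_eq_single (N, 0)]
  · rintro ⟨i, j⟩ hij hne
    have h1 := mem_antidiagonal.mp hij
    rw [ha i, zero_mul]
    by_contra hcon
    apply hne
    have h2 : i + j = N := h1
    rw [Prod.mk.injEq]
    omega
  · intro h1
    exact absurd (mem_antidiagonal.mpr (add_zero N)) h1

theorem coeff_prod_top {N : ℕ} {p b : ℕ → ℝ[X]} (h : ∀ d, EqL N (p d) (b d))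
    (hp : ∀ d, (p d).coeff 0 = 1) (hb : ∀ d, (b d).coeff 0 = 1) (k : ℕ) :
    (∏ d ∈ range k, p d).coeff N = (∏ d ∈ range k, b d).coeff N +
      ∑ d ∈ range k, ((p d).coeff N - (b d).coeff N) := by
  have h0 : ∀ f : ℕ → ℝ[X], (∀ d, (f d).coeff 0 = 1) → ∀ k, (∏ d ∈ range k, f d).coeff 0 = 1 := by
    intro f hf k
    rw [coeff_zero_eq_eval_zero, eval_prod]
    refine prod_eq_one fun d _ => ?_
    rw [← coeff_zero_eq_eval_zero, hf]
  induction k with
  | zero => simp
  | succ k ih =>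
    rw [prod_range_succ, prod_range_succ, sum_range_succ]
    have h1 : (∏ d ∈ range k, p d) * p k = (∏ d ∈ range k, b d) * b k +
        ((∏ d ∈ range k, p d) - ∏ d ∈ range k, b d) * p k +
        (p k - b k) * ∏ d ∈ range k, b d := by ring
    rw [h1, coeff_add, coeff_add, coeff_mul_top (N := N) (a := p k - b k),
      coeff_mul_top (N := N) (b := p k), hp, h0 b hb, mul_one, mul_one, coeff_sub, coeff_sub, ih]
    · ring
    · intro i hi
      rw [coeff_sub, sub_eq_zero]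
      exact EqL.prod (s := range k) (fun d _ => h d) i hi
    · intro i hi
      rw [coeff_sub, sub_eq_zero]
      exact h k i hi

theorem Ps_St (N R : ℕ) (l : ℕ → ZMod 3) (σ : ℝ) :
    Ps (St N R l) σ = ∏ s ∈ range R, Ps (Cl N (l s)) (σ + s * 3 ^ N) := by
  rw [Ps, prod_St]
  refine prod_congr rfl fun s _ => prod_congr rfl fun z _ => ?_
  rw [Nat.cast_add, Nat.cast_mul, Nat.cast_pow, Nat.cast_ofNat, add_assoc]

theorem invE_succ {N : ℕ} (h : InvE (N + 1)) : InvE (N + 2) := by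
  have key : ∀ (t : ZMod 3) (σ : ℝ), (Ps (Cl (N + 2) t) σ).coeff (N + 1) =
      (Ps (Cl (N + 2) 0) σ).coeff (N + 1) := by
    intro t σ
    have h1 : ∀ t : ZMod 3, (Ps (Cl (N + 2) t) σ).coeff (N + 1) =
        (∏ d ∈ range 3, Ps (Cl (N + 1) 0) (σ + d * 3 ^ (N + 1))).coeff (N + 1) +
        ∑ d ∈ range 3, ((Ps (Cl (N + 1) (t - (d : ZMod 3))) (σ + d * 3 ^ (N + 1))).coeff (N + 1) -
          (Ps (Cl (N + 1) 0) (σ + d * 3 ^ (N + 1))).coeff (N + 1)) := by
      intro t
      rw [Cl_succ, Ps_St]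
      exact coeff_prod_top (fun d => h _ _ _) (fun d => Ps_coeff_zero _ _)
        (fun d => Ps_coeff_zero _ _) 3
    have h2 : ∀ t : ZMod 3,
        ∑ d ∈ range 3, ((Ps (Cl (N + 1) (t - (d : ZMod 3))) (σ + d * 3 ^ (N + 1))).coeff (N + 1) -
          (Ps (Cl (N + 1) 0) (σ + d * 3 ^ (N + 1))).coeff (N + 1)) =
        ∑ t' : ZMod 3, ((Ps (Cl (N + 1) t') 0).coeff (N + 1) -
          (Ps (Cl (N + 1) 0) 0).coeff (N + 1)) := by
      intro t
      rw [← sum_rot _ t]
      refine sum_congr rfl fun d _ => ?_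
      have h3 := h.top (t - (d : ZMod 3)) 0 (σ + d * 3 ^ (N + 1))
      linarith
    rw [h1, h1, h2, h2]
  intro t t' σ i hi
  rcases Nat.lt_succ_iff_lt_or_eq.mp hi with hi | rfl
  · rw [Cl_succ, Cl_succ, Ps_St, Ps_St]
    exact EqL.prod (s := range 3) (fun s _ => h _ _ _) i hi
  · rw [key t, key t']

theorem invE (N : ℕ) : InvE (N + 1) := by
  induction N with
  | zero =>
    intro t t' σ i hi
    have h1 : i = 0 := by omega
    subst h1
    rw [Ps_coeff_zero, Ps_coeff_zero]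
  | succ N ih => exact invE_succ ih

/-! ## Coefficients which are polynomials in the shift -/

/-- the coefficient of `X ^ r` is a polynomial of degree at most `r` -/
def Gd (q : ℝ[X][X]) : Prop := ∀ r, (q.coeff r).natDegree ≤ r

theorem Gd.mul {p q : ℝ[X][X]} (hp : Gd p) (hq : Gd q) : Gd (p * q) := by
  intro r
  rw [coeff_mul]
  refine natDegree_sum_le_of_forall_le _ _ fun x hx => ?_
  have h1 := mem_antidiagonal.mp hx
  refine natDegree_mul_le.trans ?_
  rw [← h1]
  exact add_le_add (hp _) (hq _)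

theorem Gd.one : Gd 1 := by
  intro r
  rw [coeff_one]
  split_ifs
  · rw [natDegree_one]; exact Nat.zero_le _
  · rw [natDegree_zero]; exact Nat.zero_le _

theorem Gd.pow {p : ℝ[X][X]} (hp : Gd p) (k : ℕ) : Gd (p ^ k) := by
  induction k with
  | zero => rw [pow_zero]; exact Gd.one
  | succ k ih => rw [pow_succ]; exact ih.mul hp

theorem Gd.lin {f : ℝ[X]} (hf : f.natDegree ≤ 1) : Gd (1 + C f * X) := by
  intro r
  rw [coeff_add, coeff_one, coeff_C_mul, coeff_X]
  refine (natDegree_add_le _ _).trans (max_le ?_ ?_)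
  · split_ifs
    · rw [natDegree_one]; exact Nat.zero_le _
    · rw [natDegree_zero]; exact Nat.zero_le _
  · split_ifs with h
    · rw [← h, mul_one]
      exact hf
    · rw [mul_zero, natDegree_zero]
      exact Nat.zero_le _

theorem Gd.map (q : ℝ[X]) : Gd (q.map C) := by
  intro r
  rw [coeff_map, natDegree_C]
  exact Nat.zero_le _

/-! ## The generating polynomial on a slot -/

theorem gp_slot {N R s : ℕ} (hs : s < R) (l : ℕ → ZMod 3) {v : ℝ} (hv0 : 0 ≤ v)
    (hv1 : v ≤ 3 ^ (N + 1)) : gp (St (N + 1) R l) (s * 3 ^ (N + 1) + v) =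
    (∏ z ∈ Cl (N + 1) (l s), (1 + C ((s : ℝ) * 3 ^ (N + 1)) * X + C (max v z) * X)) *
      ((1 + C ((s : ℝ) * 3 ^ (N + 1) + v) * X) ^ (3 ^ N * s) *
        ∏ r ∈ Ico (s + 1) R, Ps (Cl (N + 1) (l r)) (r * 3 ^ (N + 1))) := by
  have hA : (0 : ℝ) < 3 ^ (N + 1) := by positivity
  rw [gp, prod_St, ← prod_range_mul_prod_Ico _ hs.le, prod_eq_prod_Ico_succ_bot hs]
  have h1 : ∏ r ∈ range s, ∏ z ∈ Cl (N + 1) (l r),
      (1 + C (max ((s : ℝ) * 3 ^ (N + 1) + v) ((r * 3 ^ (N + 1) + z : ℕ) : ℝ)) * X : ℝ[X]) =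
      (1 + C ((s : ℝ) * 3 ^ (N + 1) + v) * X) ^ (3 ^ N * s) := by
    have h2 : ∀ r ∈ range s, ∏ z ∈ Cl (N + 1) (l r),
        (1 + C (max ((s : ℝ) * 3 ^ (N + 1) + v) ((r * 3 ^ (N + 1) + z : ℕ) : ℝ)) * X : ℝ[X]) =
        (1 + C ((s : ℝ) * 3 ^ (N + 1) + v) * X) ^ (3 ^ N) := by
      intro r hr
      rw [← card_Cl N (l r), ← prod_const]
      refine prod_congr rfl fun z hz => ?_
      have hz' : z < 3 ^ (N + 1) := (mem_Cl.mp hz).1
      have hr' := mem_range.mp hr
      rw [max_eq_left]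
      have h3 : r * 3 ^ (N + 1) + z ≤ s * 3 ^ (N + 1) := by
        calc r * 3 ^ (N + 1) + z ≤ r * 3 ^ (N + 1) + 3 ^ (N + 1) := by omega
          _ = (r + 1) * 3 ^ (N + 1) := by ring
          _ ≤ s * 3 ^ (N + 1) := Nat.mul_le_mul_right _ hr'
      have h4 : ((r * 3 ^ (N + 1) + z : ℕ) : ℝ) ≤ (s * 3 ^ (N + 1) : ℕ) := Nat.cast_le.mpr h3
      rw [Nat.cast_mul, Nat.cast_pow, Nat.cast_ofNat] at h4
      linarith
    rw [prod_congr rfl h2, prod_const, card_range, ← pow_mul]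
  have h2 : ∏ z ∈ Cl (N + 1) (l s),
      (1 + C (max ((s : ℝ) * 3 ^ (N + 1) + v) ((s * 3 ^ (N + 1) + z : ℕ) : ℝ)) * X : ℝ[X]) =
      ∏ z ∈ Cl (N + 1) (l s), (1 + C ((s : ℝ) * 3 ^ (N + 1)) * X + C (max v z) * X) := by
    refine prod_congr rfl fun z _ => ?_
    rw [Nat.cast_add, Nat.cast_mul, Nat.cast_pow, Nat.cast_ofNat, max_add_add_left, C_add]
    ring
  have h3 : ∏ r ∈ Ico (s + 1) R, ∏ z ∈ Cl (N + 1) (l r),
      (1 + C (max ((s : ℝ) * 3 ^ (N + 1) + v) ((r * 3 ^ (N + 1) + z : ℕ) : ℝ)) * X : ℝ[X]) =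
      ∏ r ∈ Ico (s + 1) R, Ps (Cl (N + 1) (l r)) (r * 3 ^ (N + 1)) := by
    refine prod_congr rfl fun r hr => prod_congr rfl fun z _ => ?_
    have hr' := (mem_Ico.mp hr).1
    rw [max_eq_right, Nat.cast_add, Nat.cast_mul, Nat.cast_pow, Nat.cast_ofNat]
    have h4 : ((s + 1 : ℕ) : ℝ) ≤ r := Nat.cast_le.mpr hr'
    rw [Nat.cast_add, Nat.cast_one] at h4
    have h5 : ((s : ℝ) + 1) * 3 ^ (N + 1) ≤ r * 3 ^ (N + 1) := mul_le_mul_of_nonneg_right h4 hA.le
    rw [Nat.cast_add, Nat.cast_mul, Nat.cast_pow, Nat.cast_ofNat]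
    have h6 : (0 : ℝ) ≤ z := Nat.cast_nonneg z
    linarith
  rw [h1, h2, h3]
  ring

/-- the coefficients on a slot -/
theorem slot_coeff {N R s m : ℕ} (hs : s < R) (hm : m < N + 1) :
    ∃ q : ℕ → ℝ[X], (∀ j, (q j).natDegree ≤ m - j) ∧ q m = 1 ∧
      ∀ (l : ℕ → ZMod 3) (v : ℝ), 0 ≤ v → v ≤ 3 ^ (N + 1) →
        (gp (St (N + 1) R l) (s * 3 ^ (N + 1) + v)).coeff m =
          ∑ j ∈ range (m + 1), (gp (Cl (N + 1) (l s)) v).coeff j * (q j).eval v := by
  set a : ℝ := (s : ℝ) * 3 ^ (N + 1) with ha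
  let G : ℕ → ℝ[X][X] := fun j => (1 + C (C a) * X) ^ (3 ^ N - j) *
    ((1 + C (C a + X) * X) ^ (3 ^ N * s) *
      (∏ r ∈ Ico (s + 1) R, Ps (Cl (N + 1) 0) (r * 3 ^ (N + 1))).map C)
  have hG : ∀ j, Gd (G j) := by
    intro j
    refine ((Gd.lin ?_).pow _).mul (((Gd.lin ?_).pow _).mul (Gd.map _))
    · rw [natDegree_C]; exact Nat.zero_le _
    · refine (natDegree_add_le _ _).trans (max_le ?_ ?_)
      · rw [natDegree_C]; exact Nat.zero_le _
      · rw [natDegree_X]
  have hmap : ∀ (j : ℕ) (v : ℝ), (G j).map (evalRingHom v) = (1 + C a * X) ^ (3 ^ N - j) *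
      ((1 + C (a + v) * X) ^ (3 ^ N * s) *
        ∏ r ∈ Ico (s + 1) R, Ps (Cl (N + 1) 0) (r * 3 ^ (N + 1))) := by
    intro j v
    have h1 : (evalRingHom v : ℝ[X] →+* ℝ).comp C = RingHom.id ℝ := by
      ext r
      simp
    simp only [G, Polynomial.map_mul, Polynomial.map_pow, Polynomial.map_add, Polynomial.map_one,
      map_C, map_X, coe_evalRingHom, eval_C, eval_add, eval_X]
    rw [Polynomial.map_map, h1, Polynomial.map_id]
  have hc0 : ∀ p : ℝ[X][X], ∀ v : ℝ, (p.coeff 0).eval v = (p.map (evalRingHom v)).coeff 0 := by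
    intro p v
    rw [coeff_map, coe_evalRingHom]
  refine ⟨fun j => (G j).coeff (m - j), fun j => hG j _, ?_, fun l v hv0 hv1 => ?_⟩
  · show (G m).coeff (m - m) = 1
    rw [Nat.sub_self]
    apply Polynomial.funext
    intro v
    rw [hc0, hmap, eval_one, coeff_zero_eq_eval_zero, eval_mul, eval_mul, eval_pow, eval_pow,
      ← coeff_zero_eq_eval_zero (p := ∏ r ∈ Ico (s + 1) R, Ps (Cl (N + 1) 0) (r * 3 ^ (N + 1))),
      coeff_zero_eq_eval_zero, eval_prod]
    have h1 : ∏ r ∈ Ico (s + 1) R, eval 0 (Ps (Cl (N + 1) 0) ((r : ℝ) * 3 ^ (N + 1))) = 1 :=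
      prod_eq_one fun r _ => by rw [← coeff_zero_eq_eval_zero, Ps_coeff_zero]
    rw [h1]
    simp
  · rw [gp_slot hs l hv0 hv1, coeff_shift, card_Cl]
    refine sum_congr rfl fun j hj => ?_
    show _ = _ * ((G j).coeff (m - j)).eval v
    have h1 : ((G j).coeff (m - j)).eval v = ((G j).map (evalRingHom v)).coeff (m - j) := by
      rw [coeff_map, coe_evalRingHom]
    rw [h1, hmap]
    congr 1
    refine (EqL.refl (k := N + 1) _).mul ((EqL.refl _).mul (EqL.prod fun r _ => ?_)) _ (by omega)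
    exact invE N _ _ _

/-! ## Integrals -/

theorem continuous_coeff (T : Finset ℕ) (m : ℕ) : Continuous fun u : ℝ => (gp T u).coeff m := by
  classical
  induction T using Finset.induction_on generalizing m with
  | empty => exact continuous_const
  | insert a T ha ih =>
    have h1 : ∀ u : ℝ, gp (insert a T) u = gp T u + C (max u (a : ℝ)) * (X * gp T u) := by
      intro u
      rw [gp, prod_insert ha, gp]
      ring
    rcases m with _ | m
    · have h2 : (fun u : ℝ => (gp (insert a T) u).coeff 0) = fun u => (gp T u).coeff 0 := by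
        funext u
        rw [h1, coeff_add, coeff_C_mul, coeff_X_mul_zero, mul_zero, add_zero]
      rw [h2]
      exact ih 0
    · have h2 : (fun u : ℝ => (gp (insert a T) u).coeff (m + 1)) =
          fun u => (gp T u).coeff (m + 1) + max u (a : ℝ) * (gp T u).coeff m := by
        funext u
        rw [h1, coeff_add, coeff_C_mul, coeff_X_mul]
      rw [h2]
      exact (ih (m + 1)).add ((continuous_id.max continuous_const).mul (ih m))

/-- the integral of a polynomial against a coefficient -/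
noncomputable def Ig (T : Finset ℕ) (m : ℕ) (f : ℝ[X]) (a b : ℝ) : ℝ :=
  ∫ u in a..b, (gp T u).coeff m * f.eval u

theorem intble (T : Finset ℕ) (m : ℕ) (f : ℝ[X]) (a b : ℝ) :
    IntervalIntegrable (fun u => (gp T u).coeff m * f.eval u) MeasureTheory.volume a b :=
  ((continuous_coeff T m).mul f.continuous).intervalIntegrable a b

theorem Ig_add (T : Finset ℕ) (m : ℕ) (f g : ℝ[X]) (a b : ℝ) :
    Ig T m (f + g) a b = Ig T m f a b + Ig T m g a b := by
  rw [Ig, Ig, Ig, ← intervalIntegral.integral_add (intble T m f a b) (intble T m g a b)]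
  refine intervalIntegral.integral_congr fun u _ => ?_
  show _ * _ = _ * _ + _ * _
  rw [eval_add, mul_add]

theorem Ig_smul (T : Finset ℕ) (m : ℕ) (c : ℝ) (f : ℝ[X]) (a b : ℝ) :
    Ig T m (C c * f) a b = c * Ig T m f a b := by
  rw [Ig, Ig, ← intervalIntegral.integral_const_mul]
  refine intervalIntegral.integral_congr fun u _ => ?_
  show _ * _ = _ * (_ * _)
  rw [eval_mul, eval_C]
  ring

theorem Ig_zero (T : Finset ℕ) (m : ℕ) (a b : ℝ) : Ig T m 0 a b = 0 := by
  have h1 := Ig_smul T m 0 0 a b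
  rwa [C_0, zero_mul, zero_mul] at h1

theorem Ig_sum {ι : Type*} (S : Finset ι) (T : Finset ℕ) (m : ℕ) (f : ι → ℝ[X]) (a b : ℝ) :
    Ig T m (∑ i ∈ S, f i) a b = ∑ i ∈ S, Ig T m (f i) a b := by
  classical
  induction S using Finset.induction_on with
  | empty => rw [sum_empty, sum_empty, Ig_zero]
  | insert i S hi ih => rw [sum_insert hi, sum_insert hi, Ig_add, ih]

/-- the functionals do not depend on the class -/
def InvI (N : ℕ) : Prop := ∀ (t t' : ZMod 3) (m : ℕ) (f : ℝ[X]), 2 * m + f.natDegree < N →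
  Ig (Cl N t) m f 0 (3 ^ N) = Ig (Cl N t') m f 0 (3 ^ N)

theorem invI_of_monomial {N : ℕ} (h : ∀ (t t' : ZMod 3) (m p : ℕ), 2 * m + p < N →
    Ig (Cl N t) m (X ^ p) 0 (3 ^ N) = Ig (Cl N t') m (X ^ p) 0 (3 ^ N)) : InvI N := by
  intro t t' m f hf
  rw [f.as_sum_range_C_mul_X_pow, Ig_sum, Ig_sum]
  refine sum_congr rfl fun p hp => ?_
  have hp' := mem_range.mp hp
  rw [Ig_smul, Ig_smul, h t t' m p (by omega)]

/-- the integral on a slot -/
theorem Ig_slot {N R s m : ℕ} (hs : s < R) (hm : m < N + 1) (f : ℝ[X]) :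
    ∃ q : ℕ → ℝ[X], (∀ j, (q j).natDegree ≤ m - j) ∧ q m = 1 ∧ ∀ l : ℕ → ZMod 3,
      Ig (St (N + 1) R l) m f (s * 3 ^ (N + 1)) (s * 3 ^ (N + 1) + 3 ^ (N + 1)) =
        ∑ j ∈ range (m + 1), Ig (Cl (N + 1) (l s)) j
          (q j * f.comp (C ((s : ℝ) * 3 ^ (N + 1)) + X)) 0 (3 ^ (N + 1)) := by
  obtain ⟨q, hq1, hq2, hq3⟩ := slot_coeff (N := N) hs hm
  refine ⟨q, hq1, hq2, fun l => ?_⟩
  have hA : (0 : ℝ) ≤ 3 ^ (N + 1) := by positivity
  have h1 : Ig (St (N + 1) R l) m f (s * 3 ^ (N + 1)) (s * 3 ^ (N + 1) + 3 ^ (N + 1)) =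
      ∫ v in (0 : ℝ)..(3 ^ (N + 1)), (gp (St (N + 1) R l) (s * 3 ^ (N + 1) + v)).coeff m *
        f.eval (s * 3 ^ (N + 1) + v) := by
    rw [Ig]
    have h2 := intervalIntegral.integral_comp_add_left
      (f := fun u => (gp (St (N + 1) R l) u).coeff m * f.eval u)
      (a := 0) (b := (3 : ℝ) ^ (N + 1)) ((s : ℝ) * 3 ^ (N + 1))
    rw [add_zero] at h2
    exact h2.symm
  have h2 : (∫ v in (0 : ℝ)..(3 ^ (N + 1)), (gp (St (N + 1) R l) (s * 3 ^ (N + 1) + v)).coeff m *
        f.eval (s * 3 ^ (N + 1) + v)) = ∫ v in (0 : ℝ)..(3 ^ (N + 1)), ∑ j ∈ range (m + 1),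
          (gp (Cl (N + 1) (l s)) v).coeff j *
            (q j * f.comp (C ((s : ℝ) * 3 ^ (N + 1)) + X)).eval v := by
    refine intervalIntegral.integral_congr fun v hv => ?_
    rw [Set.uIcc_of_le hA] at hv
    show _ * _ = _
    rw [hq3 l v hv.1 hv.2, sum_mul]
    refine sum_congr rfl fun j _ => ?_
    rw [eval_mul, eval_comp, eval_add, eval_C, eval_X, mul_assoc]
  rw [h1, h2, intervalIntegral.integral_finsetSum]
  · rfl
  · intro j _
    exact intble _ _ _ _ _

theorem natDegree_comp_shift (f : ℝ[X]) (a : ℝ) : (f.comp (C a + X)).natDegree = f.natDegree := by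
  rw [natDegree_comp, add_comm, natDegree_X_add_C, mul_one]

/-- the integrals over a slot do not depend on the letters -/
theorem InvI.slot {N R s m : ℕ} (h : InvI (N + 1)) (hs : s < R) (f : ℝ[X])
    (hf : 2 * m + f.natDegree < N + 1) (l l' : ℕ → ZMod 3) :
    Ig (St (N + 1) R l) m f (s * 3 ^ (N + 1)) (s * 3 ^ (N + 1) + 3 ^ (N + 1)) =
      Ig (St (N + 1) R l') m f (s * 3 ^ (N + 1)) (s * 3 ^ (N + 1) + 3 ^ (N + 1)) := by
  obtain ⟨q, hq1, -, hq3⟩ := Ig_slot (N := N) (m := m) hs (by omega) f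
  rw [hq3, hq3]
  refine sum_congr rfl fun j hj => h _ _ _ _ ?_
  have hj' := mem_range.mp hj
  have h1 := natDegree_mul_le (p := q j) (q := f.comp (C ((s : ℝ) * 3 ^ (N + 1)) + X))
  rw [natDegree_comp_shift] at h1
  have h2 := hq1 j
  omega

theorem invI_succ {N : ℕ} (h : InvI (N + 1)) : InvI (N + 2) := by
  refine invI_of_monomial fun t t' m p hmp => ?_
  have hA : (0 : ℝ) ≤ 3 ^ (N + 1) := by positivity
  -- decomposition in three slots
  have h1 : ∀ t : ZMod 3, Ig (Cl (N + 2) t) m (X ^ p) 0 (3 ^ (N + 2)) =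
      ∑ s ∈ range 3, Ig (St (N + 1) 3 (fun d => t - d)) m (X ^ p) (s * 3 ^ (N + 1))
        (s * 3 ^ (N + 1) + 3 ^ (N + 1)) := by
    intro t
    rw [Cl_succ, Ig]
    have h2 := intervalIntegral.sum_integral_adjacent_intervals (n := 3)
      (f := fun u => (gp (St (N + 1) 3 (fun d => t - d)) u).coeff m * ((X : ℝ[X]) ^ p).eval u)
      (μ := MeasureTheory.volume) (a := fun k : ℕ => (k : ℝ) * 3 ^ (N + 1))
      (fun k _ => intble _ _ _ _ _)
    rw [Nat.cast_zero, zero_mul, Nat.cast_ofNat, show (3 : ℝ) * 3 ^ (N + 1) = 3 ^ (N + 2) by ring]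
      at h2
    rw [← h2]
    refine sum_congr rfl fun k _ => ?_
    rw [Ig]
    congr 1
    rw [Nat.cast_add, Nat.cast_one]
    ring
  -- the leading part and the rest on every slot
  have h2 : ∀ s ∈ range 3, ∃ κ : ℝ, ∀ t : ZMod 3,
      Ig (St (N + 1) 3 (fun d => t - d)) m (X ^ p) (s * 3 ^ (N + 1))
        (s * 3 ^ (N + 1) + 3 ^ (N + 1)) = Ig (Cl (N + 1) (t - s)) m (X ^ p) 0 (3 ^ (N + 1)) + κ := by
    intro s hs
    obtain ⟨q, hq1, hq2, hq3⟩ := Ig_slot (N := N) (m := m) (mem_range.mp hs) (by omega) (X ^ p)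
    set a : ℝ := (s : ℝ) * 3 ^ (N + 1) with ha
    set g : ℝ[X] := (X ^ p : ℝ[X]).comp (C a + X) with hg
    have hgdeg : g.natDegree = p := by
      rw [hg, natDegree_comp_shift, natDegree_X_pow]
    -- lower order part of `g`
    have hlow : g - X ^ p = 0 ∨ (g - X ^ p).natDegree + 1 ≤ p := by
      rcases Nat.eq_zero_or_pos p with rfl | hp
      · left
        rw [hg, pow_zero, one_comp, sub_self]
      · right
        have hg' : g = (X + C a) ^ p := by rw [hg, X_pow_comp, add_comm]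
        have h4 : (g - X ^ p).degree < (p : WithBot ℕ) := by
          have h5 : g.degree = p := by
            rw [hg', degree_pow, degree_X_add_C, nsmul_one]
          have h6 : (g - X ^ p).degree < g.degree := by
            apply degree_sub_lt_left
            · rw [h5, degree_X_pow]
            · rw [← degree_ne_bot, h5]
              exact WithBot.natCast_ne_bot p
            · rw [hg', leadingCoeff_pow, leadingCoeff_X_add_C, one_pow, leadingCoeff_X_pow]
          rwa [h5] at h6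
        rcases eq_or_ne (g - X ^ p) 0 with h8 | h8
        · rw [h8, natDegree_zero]
          exact hp
        · exact (natDegree_lt_iff_degree_lt h8).mpr h4
    refine ⟨Ig (Cl (N + 1) 0) m (g - X ^ p) 0 (3 ^ (N + 1)) +
      ∑ j ∈ range m, Ig (Cl (N + 1) 0) j (q j * g) 0 (3 ^ (N + 1)), fun t => ?_⟩
    rw [hq3, sum_range_succ, hq2, one_mul]
    have h4 : Ig (Cl (N + 1) (t - s)) m g 0 (3 ^ (N + 1)) =
        Ig (Cl (N + 1) (t - s)) m (X ^ p) 0 (3 ^ (N + 1)) +
          Ig (Cl (N + 1) 0) m (g - X ^ p) 0 (3 ^ (N + 1)) := by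
      have h5 : g = X ^ p + (g - X ^ p) := by ring
      have h6 : Ig (Cl (N + 1) (t - s)) m (g - X ^ p) 0 (3 ^ (N + 1)) =
          Ig (Cl (N + 1) 0) m (g - X ^ p) 0 (3 ^ (N + 1)) := by
        rcases hlow with h0 | h0
        · rw [h0, Ig_zero, Ig_zero]
        · exact h _ _ _ _ (by omega)
      calc Ig (Cl (N + 1) (t - s)) m g 0 (3 ^ (N + 1)) =
            Ig (Cl (N + 1) (t - s)) m (X ^ p + (g - X ^ p)) 0 (3 ^ (N + 1)) := by rw [← h5]
        _ = _ := by rw [Ig_add, h6]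
    have h5 : ∑ j ∈ range m, Ig (Cl (N + 1) (t - s)) j (q j * g) 0 (3 ^ (N + 1)) =
        ∑ j ∈ range m, Ig (Cl (N + 1) 0) j (q j * g) 0 (3 ^ (N + 1)) := by
      refine sum_congr rfl fun j hj => h _ _ _ _ ?_
      have hj' := mem_range.mp hj
      have h6 := natDegree_mul_le (p := q j) (q := g)
      rw [hgdeg] at h6
      have h7 := hq1 j
      omega
    rw [h4, h5]
    ring
  choose! κ hκ using h2
  have h3 : ∀ t : ZMod 3, Ig (Cl (N + 2) t) m (X ^ p) 0 (3 ^ (N + 2)) =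
      (∑ t' : ZMod 3, Ig (Cl (N + 1) t') m (X ^ p) 0 (3 ^ (N + 1))) + ∑ s ∈ range 3, κ s := by
    intro t
    rw [h1, ← sum_rot _ t, ← sum_add_distrib]
    exact sum_congr rfl fun s hs => hκ s hs t
  rw [h3, h3]

theorem gp_coeff_zero (T : Finset ℕ) (u : ℝ) : (gp T u).coeff 0 = 1 := by
  rw [gp, coeff_zero_eq_eval_zero, eval_prod]
  refine prod_eq_one fun z _ => ?_
  simp

theorem invI (N : ℕ) : InvI (N + 1) := by
  induction N with
  | zero =>
    intro t t' m f hf
    have h1 : m = 0 := by omega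
    subst h1
    rw [Ig, Ig]
    refine intervalIntegral.integral_congr fun u _ => ?_
    show _ * _ = _ * _
    rw [gp_coeff_zero, gp_coeff_zero]
  | succ N ih => exact invI_succ ih

end Pool.Agent.Helper24.T1
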