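import Pool.Agent.Helper24.T1.Inv

/-!
# T1, row R5: invariance, final forms

For letters `l`, `l'`: the coefficients of `gp (St (N + 1) R l) u` of degree `≤ N` agree for `u ≤ 0`,
for `u ≥ R * 3 ^ (N + 1)`, and on every slot where the letters agree; their integrals against
polynomials `f` with `2 m + deg f < N + 1` agree over every slot, over `[0, R * 3 ^ (N + 1)]` and over
`[0, z]` and `[z, R * 3 ^ (N + 1)]` if the letters agree on the slot of `z`. The same for the sets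
without `z`.
-/

set_option autoImplicit false

open Finset Polynomial

namespace Pool.Agent.Helper24.T1

open Pool.Agent.T1K

/-! ## Pointwise statements -/

theorem gp_lo (T : Finset ℕ) {u : ℝ} (hu : u ≤ 0) : gp T u = Ps T 0 := by
  refine prod_congr rfl fun z _ => ?_
  rw [zero_add, max_eq_right (hu.trans (Nat.cast_nonneg z))]

/-- all the elements are below `u` -/
theorem gp_hi {T : Finset ℕ} {u : ℝ} (h : ∀ z ∈ T, (z : ℝ) ≤ u) : gp T u = (1 + C u * X) ^ T.card := by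
  rw [gp, ← prod_const]
  refine prod_congr rfl fun z hz => ?_
  rw [max_eq_left (h z hz)]

theorem card_St (N R : ℕ) (l : ℕ → ZMod 3) : (St (N + 1) R l).card = R * 3 ^ N := by
  rw [card_eq_sum_ones, sum_St]
  have h1 : ∀ s : ℕ, ∑ z ∈ Cl (N + 1) (l s), 1 = 3 ^ N := fun s => by
    rw [← card_eq_sum_ones, card_Cl]
  simp only [h1]
  rw [sum_const, card_range, smul_eq_mul]

theorem lt_of_mem_St {N R : ℕ} {l : ℕ → ZMod 3} {z : ℕ} (h : z ∈ St N R l) : z < R * 3 ^ N :=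
  (mem_St.mp h).1

theorem gp_St_hi (N R : ℕ) (l : ℕ → ZMod 3) {u : ℝ} (hu : (R : ℝ) * 3 ^ (N + 1) ≤ u) :
    gp (St (N + 1) R l) u = (1 + C u * X) ^ (R * 3 ^ N) := by
  rw [gp_hi, card_St]
  intro z hz
  have h1 : ((z : ℕ) : ℝ) ≤ (R * 3 ^ (N + 1) : ℕ) := Nat.cast_le.mpr (lt_of_mem_St hz).le
  rw [Nat.cast_mul, Nat.cast_pow, Nat.cast_ofNat] at h1
  exact h1.trans hu

theorem inv_Ps (N R : ℕ) (l l' : ℕ → ZMod 3) (σ : ℝ) :
    EqL (N + 1) (Ps (St (N + 1) R l) σ) (Ps (St (N + 1) R l') σ) := by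
  rw [Ps_St, Ps_St]
  exact EqL.prod fun s _ => invE N _ _ _

theorem inv_lo (N R : ℕ) (l l' : ℕ → ZMod 3) {u : ℝ} (hu : u ≤ 0) :
    EqL (N + 1) (gp (St (N + 1) R l) u) (gp (St (N + 1) R l') u) := by
  rw [gp_lo _ hu, gp_lo _ hu]
  exact inv_Ps N R l l' 0

theorem inv_slot_eq {N R s : ℕ} (hs : s < R) {l l' : ℕ → ZMod 3} (h : l s = l' s) {u : ℝ}
    (h0 : (s : ℝ) * 3 ^ (N + 1) ≤ u) (h1 : u ≤ (s : ℝ) * 3 ^ (N + 1) + 3 ^ (N + 1)) :
    EqL (N + 1) (gp (St (N + 1) R l) u) (gp (St (N + 1) R l') u) := by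
  obtain ⟨v, rfl⟩ : ∃ v, u = s * 3 ^ (N + 1) + v := ⟨u - s * 3 ^ (N + 1), by ring⟩
  rw [gp_slot hs l (by linarith) (by linarith), gp_slot hs l' (by linarith) (by linarith), h]
  exact (EqL.refl _).mul ((EqL.refl _).mul (EqL.prod fun r _ => invE N _ _ _))

/-- the coefficients of degree one: the sums of the elements -/
theorem Ps_coeff_one (T : Finset ℕ) : (Ps T 0).coeff 1 = ∑ z ∈ T, (z : ℝ) := by
  classical
  induction T using Finset.induction_on with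
  | empty => rw [Ps, prod_empty, sum_empty, coeff_one, if_neg one_ne_zero]
  | insert a T ha ih =>
    have h1 : Ps (insert a T) 0 = Ps T 0 + C (a : ℝ) * (X * Ps T 0) := by
      rw [Ps, prod_insert ha, Ps, zero_add]
      ring
    rw [h1, coeff_add, coeff_C_mul, coeff_X_mul, Ps_coeff_zero, ih, sum_insert ha]
    ring

theorem sum_St_eq (N R : ℕ) (l l' : ℕ → ZMod 3) :
    ∑ z ∈ St (N + 2) R l, z = ∑ z ∈ St (N + 2) R l', z := by
  have h1 := inv_Ps (N + 1) R l l' 0 1 (by omega)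
  rw [Ps_coeff_one, Ps_coeff_one, ← Nat.cast_sum, ← Nat.cast_sum] at h1
  exact Nat.cast_injective h1

/-! ## Integrals -/

theorem Ig_adj (T : Finset ℕ) (m : ℕ) (f : ℝ[X]) (a b c : ℝ) :
    Ig T m f a b + Ig T m f b c = Ig T m f a c :=
  intervalIntegral.integral_add_adjacent_intervals (intble T m f a b) (intble T m f b c)

theorem Ig_congr {T T' : Finset ℕ} {m : ℕ} (f : ℝ[X]) {a b : ℝ} (hab : a ≤ b)
    (h : ∀ u, a ≤ u → u ≤ b → (gp T u).coeff m = (gp T' u).coeff m) :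
    Ig T m f a b = Ig T' m f a b := by
  refine intervalIntegral.integral_congr fun u hu => ?_
  rw [Set.uIcc_of_le hab] at hu
  show _ * _ = _ * _
  rw [h u hu.1 hu.2]

/-- integrals between ends of slots -/
theorem inv_slots {N R m : ℕ} (f : ℝ[X]) (hf : 2 * m + f.natDegree < N + 1) (l l' : ℕ → ZMod 3)
    {s r : ℕ} (hsr : s ≤ r) (hr : r ≤ R) :
    Ig (St (N + 1) R l) m f (s * 3 ^ (N + 1)) (r * 3 ^ (N + 1)) =
      Ig (St (N + 1) R l') m f (s * 3 ^ (N + 1)) (r * 3 ^ (N + 1)) := by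
  induction r, hsr using Nat.le_induction with
  | base => rw [Ig, Ig, intervalIntegral.integral_same, intervalIntegral.integral_same]
  | succ r hsr ih =>
    rw [← Ig_adj _ m f _ (r * 3 ^ (N + 1)), ← Ig_adj (St (N + 1) R l') m f _ (r * 3 ^ (N + 1)),
      ih (by omega)]
    congr 1
    have h1 := (invI N).slot (R := R) (s := r) (by omega) f hf l l'
    rw [Nat.cast_add, Nat.cast_one, add_mul, one_mul]
    exact h1

theorem inv_all {N R m : ℕ} (f : ℝ[X]) (hf : 2 * m + f.natDegree < N + 1) (l l' : ℕ → ZMod 3) :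
    Ig (St (N + 1) R l) m f 0 (R * 3 ^ (N + 1)) = Ig (St (N + 1) R l') m f 0 (R * 3 ^ (N + 1)) := by
  have h1 := inv_slots (R := R) (m := m) f hf l l' (Nat.zero_le R) le_rfl
  rwa [Nat.cast_zero, zero_mul] at h1

/-- integrals below a point of a slot where the letters agree -/
theorem inv_below {N R m : ℕ} (f : ℝ[X]) (hf : 2 * m + f.natDegree < N + 1) {l l' : ℕ → ZMod 3}
    {s : ℕ} (hs : s < R) (h : l s = l' s) {z : ℝ} (h0 : (s : ℝ) * 3 ^ (N + 1) ≤ z)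
    (h1 : z ≤ (s : ℝ) * 3 ^ (N + 1) + 3 ^ (N + 1)) :
    Ig (St (N + 1) R l) m f 0 z = Ig (St (N + 1) R l') m f 0 z := by
  rw [← Ig_adj _ m f _ (s * 3 ^ (N + 1)), ← Ig_adj (St (N + 1) R l') m f _ (s * 3 ^ (N + 1))]
  congr 1
  · have h2 := inv_slots (R := R) (m := m) f hf l l' (Nat.zero_le s) hs.le
    rwa [Nat.cast_zero, zero_mul] at h2
  · refine Ig_congr f h0 fun u hu0 hu1 => ?_
    exact inv_slot_eq hs h hu0 (hu1.trans h1) m (by omega)

theorem inv_above {N R m : ℕ} (f : ℝ[X]) (hf : 2 * m + f.natDegree < N + 1) {l l' : ℕ → ZMod 3}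
    {s : ℕ} (hs : s < R) (h : l s = l' s) {z : ℝ} (h0 : (s : ℝ) * 3 ^ (N + 1) ≤ z)
    (h1 : z ≤ (s : ℝ) * 3 ^ (N + 1) + 3 ^ (N + 1)) :
    Ig (St (N + 1) R l) m f z (R * 3 ^ (N + 1)) = Ig (St (N + 1) R l') m f z (R * 3 ^ (N + 1)) := by
  have h2 := Ig_adj (St (N + 1) R l) m f 0 z (R * 3 ^ (N + 1))
  have h3 := Ig_adj (St (N + 1) R l') m f 0 z (R * 3 ^ (N + 1))
  have h4 := inv_below f hf hs h h0 h1
  have h5 := inv_all (R := R) f hf l l'
  linarith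

/-! ## Without one element -/

theorem gp_erase {T : Finset ℕ} {z : ℕ} (hz : z ∈ T) (u : ℝ) :
    gp T u = (1 + C (max u (z : ℝ)) * X) * gp (T.erase z) u := by
  rw [gp, gp, mul_prod_erase T (fun z => (1 + C (max u (z : ℝ)) * X : ℝ[X])) hz]

theorem coeff_of_mul {c : ℝ} {p q : ℝ[X]} (h : p = (1 + C c * X) * q) (m : ℕ) :
    q.coeff m = ∑ i ∈ range (m + 1), (-c) ^ i * p.coeff (m - i) := by
  have h0 : p.coeff 0 = q.coeff 0 := by
    rw [h, add_mul, one_mul, coeff_add, mul_assoc, coeff_C_mul, coeff_X_mul_zero, mul_zero,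
      add_zero]
  have h1 : ∀ j, p.coeff (j + 1) = q.coeff (j + 1) + c * q.coeff j := by
    intro j
    rw [h, add_mul, one_mul, coeff_add, mul_assoc, coeff_C_mul, coeff_X_mul]
  induction m with
  | zero => rw [sum_range_one, pow_zero, one_mul, h0]
  | succ m ih =>
    rw [sum_range_succ', pow_zero, one_mul, Nat.sub_zero, h1]
    have h2 : ∑ k ∈ range (m + 1), (-c) ^ (k + 1) * p.coeff (m + 1 - (k + 1)) =
        -c * ∑ k ∈ range (m + 1), (-c) ^ k * p.coeff (m - k) := by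
      rw [mul_sum]
      refine sum_congr rfl fun k _ => ?_
      rw [Nat.add_sub_add_right, pow_succ]
      ring
    rw [h2, ← ih]
    ring

theorem coeff_erase {T : Finset ℕ} {z : ℕ} (hz : z ∈ T) (u : ℝ) (m : ℕ) :
    (gp (T.erase z) u).coeff m =
      ∑ i ∈ range (m + 1), (-max u (z : ℝ)) ^ i * (gp T u).coeff (m - i) :=
  coeff_of_mul (gp_erase hz u) m

theorem EqL.erase {T T' : Finset ℕ} {z k : ℕ} (hz : z ∈ T) (hz' : z ∈ T') {u : ℝ}
    (h : EqL k (gp T u) (gp T' u)) : EqL k (gp (T.erase z) u) (gp (T'.erase z) u) := by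
  intro i hi
  rw [coeff_erase hz, coeff_erase hz']
  exact sum_congr rfl fun j _ => by rw [h _ (by omega)]

/-- below `z` -/
theorem Ig_erase_lo {T : Finset ℕ} {z : ℕ} (hz : z ∈ T) (m : ℕ) (f : ℝ[X]) {a b : ℝ}
    (hab : a ≤ b) (hb : b ≤ z) : Ig (T.erase z) m f a b =
      ∑ i ∈ range (m + 1), Ig T (m - i) (C ((-(z : ℝ)) ^ i) * f) a b := by
  have h1 : Ig (T.erase z) m f a b = ∫ u in a..b, ∑ i ∈ range (m + 1),
      (gp T u).coeff (m - i) * (C ((-(z : ℝ)) ^ i) * f).eval u := by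
    refine intervalIntegral.integral_congr fun u hu => ?_
    rw [Set.uIcc_of_le hab] at hu
    show _ * _ = _
    rw [coeff_erase hz, max_eq_right (hu.2.trans hb), sum_mul]
    refine sum_congr rfl fun i _ => ?_
    rw [eval_mul, eval_C]
    ring
  rw [h1, intervalIntegral.integral_finsetSum]
  · rfl
  · intro j _
    exact intble _ _ _ _ _

/-- above `z` -/
theorem Ig_erase_hi {T : Finset ℕ} {z : ℕ} (hz : z ∈ T) (m : ℕ) (f : ℝ[X]) {a b : ℝ}
    (hab : a ≤ b) (ha : (z : ℝ) ≤ a) : Ig (T.erase z) m f a b =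
      ∑ i ∈ range (m + 1), Ig T (m - i) ((-X) ^ i * f) a b := by
  have h1 : Ig (T.erase z) m f a b = ∫ u in a..b, ∑ i ∈ range (m + 1),
      (gp T u).coeff (m - i) * ((-X) ^ i * f).eval u := by
    refine intervalIntegral.integral_congr fun u hu => ?_
    rw [Set.uIcc_of_le hab] at hu
    show _ * _ = _
    rw [coeff_erase hz, max_eq_left (ha.trans hu.1), sum_mul]
    refine sum_congr rfl fun i _ => ?_
    rw [eval_mul, eval_pow, eval_neg, eval_X]
    ring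
  rw [h1, intervalIntegral.integral_finsetSum]
  · rfl
  · intro j _
    exact intble _ _ _ _ _

theorem slot_of_mem {N R : ℕ} {l : ℕ → ZMod 3} {z : ℕ} (h : z ∈ St (N + 1) R l) :
    z / 3 ^ (N + 1) < R ∧ ((z / 3 ^ (N + 1) : ℕ) : ℝ) * 3 ^ (N + 1) ≤ z ∧
      (z : ℝ) ≤ ((z / 3 ^ (N + 1) : ℕ) : ℝ) * 3 ^ (N + 1) + 3 ^ (N + 1) := by
  have hA : 0 < 3 ^ (N + 1) := by positivity
  have h1 := Nat.div_add_mod z (3 ^ (N + 1))
  have h2 := Nat.mod_lt z hA
  refine ⟨Nat.div_lt_of_lt_mul (by rw [mul_comm]; exact lt_of_mem_St h), ?_, ?_⟩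
  · have h3 : ((z / 3 ^ (N + 1) * 3 ^ (N + 1) : ℕ) : ℝ) ≤ z := by
      exact_mod_cast Nat.div_mul_le_self z (3 ^ (N + 1))
    rwa [Nat.cast_mul, Nat.cast_pow, Nat.cast_ofNat] at h3
  · have h3 : z ≤ z / 3 ^ (N + 1) * 3 ^ (N + 1) + 3 ^ (N + 1) := by
      rw [mul_comm]
      omega
    have h4 : (z : ℝ) ≤ ((z / 3 ^ (N + 1) * 3 ^ (N + 1) + 3 ^ (N + 1) : ℕ) : ℝ) :=
      Nat.cast_le.mpr h3
    rwa [Nat.cast_add, Nat.cast_mul, Nat.cast_pow, Nat.cast_ofNat] at h4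

/-- a common element has the same letter -/
theorem letter_eq {N R : ℕ} {l l' : ℕ → ZMod 3} {z : ℕ} (h : z ∈ St N R l) (h' : z ∈ St N R l') :
    l (z / 3 ^ N) = l' (z / 3 ^ N) := by
  rw [← (mem_St.mp h).2, ← (mem_St.mp h').2]

theorem inv_erase_lo {N R m : ℕ} (f : ℝ[X]) (hf : 2 * m + f.natDegree < N + 1)
    {l l' : ℕ → ZMod 3} {z : ℕ} (hz : z ∈ St (N + 1) R l) (hz' : z ∈ St (N + 1) R l') :
    Ig ((St (N + 1) R l).erase z) m f 0 z = Ig ((St (N + 1) R l').erase z) m f 0 z := by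
  rw [Ig_erase_lo hz m f (Nat.cast_nonneg z) le_rfl, Ig_erase_lo hz' m f (Nat.cast_nonneg z) le_rfl]
  refine sum_congr rfl fun i _ => ?_
  obtain ⟨h1, h2, h3⟩ := slot_of_mem hz
  refine inv_below _ ?_ h1 (letter_eq hz hz') h2 h3
  have := natDegree_C_mul_le ((-(z : ℝ)) ^ i) f
  omega

theorem inv_erase_hi {N R m : ℕ} (f : ℝ[X]) (hf : 2 * m + f.natDegree < N + 1)
    {l l' : ℕ → ZMod 3} {z : ℕ} (hz : z ∈ St (N + 1) R l) (hz' : z ∈ St (N + 1) R l') :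
    Ig ((St (N + 1) R l).erase z) m f z (R * 3 ^ (N + 1)) =
      Ig ((St (N + 1) R l').erase z) m f z (R * 3 ^ (N + 1)) := by
  have hzR : (z : ℝ) ≤ R * 3 ^ (N + 1) := by
    have h1 : ((z : ℕ) : ℝ) ≤ (R * 3 ^ (N + 1) : ℕ) := Nat.cast_le.mpr (lt_of_mem_St hz).le
    rwa [Nat.cast_mul, Nat.cast_pow, Nat.cast_ofNat] at h1
  rw [Ig_erase_hi hz m f hzR le_rfl, Ig_erase_hi hz' m f hzR le_rfl]
  refine sum_congr rfl fun i hi => ?_
  obtain ⟨h1, h2, h3⟩ := slot_of_mem hz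
  refine inv_above _ ?_ h1 (letter_eq hz hz') h2 h3
  have h4 := natDegree_mul_le (p := (-X : ℝ[X]) ^ i) (q := f)
  have h5 : ((-X : ℝ[X]) ^ i).natDegree ≤ i := by
    refine natDegree_pow_le.trans ?_
    rw [natDegree_neg, natDegree_X, mul_one]
  have := mem_range.mp hi
  omega

/-! ## The sets `TS` and `TL` -/

theorem TS_eq {N R M : ℕ} (l : ℕ → ZMod 3) (hM : R * 3 ^ N ≤ M) :
    TS N R M l = insert M (St N R l) ∧ M ∉ St N R l := by
  refine ⟨?_, fun h => ?_⟩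
  · rw [TS, union_comm]
    rfl
  · have := lt_of_mem_St h
    omega

theorem gp_TS {N R M : ℕ} (l : ℕ → ZMod 3) (hM : R * 3 ^ N ≤ M) (u : ℝ) :
    gp (TS N R M l) u = (1 + C (max u (M : ℝ)) * X) * gp (St N R l) u := by
  obtain ⟨h1, h2⟩ := TS_eq l hM
  rw [h1, gp, prod_insert h2]
  rfl

theorem le_Mn (R : ℕ) : R * 3 ^ 11 ≤ Mn R := Nat.le_add_right _ _

theorem card_TL (R : ℕ) (l : ℕ → ZMod 3) : (TL R l).card = Kn R := by
  obtain ⟨h1, h2⟩ := TS_eq (N := 11) l (le_Mn R)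
  rw [TL, h1, card_insert_of_notMem h2, card_St 10, Kn]

theorem sum_TL (R : ℕ) (l l' : ℕ → ZMod 3) : ∑ z ∈ TL R l, z = ∑ z ∈ TL R l', z := by
  obtain ⟨h1, h2⟩ := TS_eq (N := 11) l (le_Mn R)
  obtain ⟨h1', h2'⟩ := TS_eq (N := 11) l' (le_Mn R)
  rw [TL, TL, h1, h1', sum_insert h2, sum_insert h2', sum_St_eq 9 R l l']

end Pool.Agent.Helper24.T1
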